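import Mathlib

/-!
# Tropical circuits (pure dynamic programs) for Set Cover: definitions
-/

namespace Pool.Agent.Lib.MP_8fffab_lc

/-- The gates of a tropical, i.e. `(min,+)`, circuit with one input variable for each `a : ι`:
an input variable, a constant in `ℕ ∪ {∞}`, the minimum of the values of two earlier gates, or the
sum of the values of two earlier gates.  A circuit is a sequence `C : ℕ → Gate ι` of gates together
with the number of its output gate; its gates after the output gate play no role. -/
inductive Gate (ι : Type) : Type
  | input (a : ι) : Gate ι
  | const (c : ℕ∞) : Gate ι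
  | min (i j : ℕ) : Gate ι
  | add (i j : ℕ) : Gate ι

/-- The value of gate number `k` of the circuit `C` when the input variables have the values `x`.
(A gate may only refer to earlier gates; a gate that violates this has value `∞`.) -/
noncomputable def eval {ι : Type} (C : ℕ → Gate ι) (x : ι → ℕ∞) (k : ℕ) : ℕ∞ :=
  match C k with
  | .input a => x a
  | .const c => c
  | .min i j => if _h : i < k ∧ j < k then Min.min (eval C x i) (eval C x j) else ⊤
  | .add i j => if _h : i < k ∧ j < k then eval C x i + eval C x j else ⊤
termination_by k
decreasing_by all_goals omega

/-- The number of addition gates among the gates `0, …, out` of the circuit `C`. -/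
noncomputable def numAdd {ι : Type} (C : ℕ → Gate ι) (out : ℕ) : ℕ :=
  {k : ℕ | k ≤ out ∧ ∃ i j, C k = Gate.add i j}.ncard

/-- The Set Cover instance with universe `{0, …, n-1}`, family `F` and budget `k` is a
yes-instance: some subfamily of at most `k` sets has union the universe. -/
def HasCover {n : ℕ} (F : Finset (Finset (Fin n))) (k : ℕ) : Prop :=
  ∃ G ⊆ F, G.card ≤ k ∧ ∀ u : Fin n, ∃ A ∈ G, u ∈ A

/-- The input that encodes the family `F`: the variable of a set `A` has the value `1` if `A` is in
`F` and the value `∞` if it is not. -/
noncomputable def indicator {n : ℕ} (F : Finset (Finset (Fin n))) (A : Finset (Fin n)) : ℕ∞ :=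
  if A ∈ F then 1 else ⊤

/-- The circuit `C` with output gate `out` solves Set Cover with budget `k` for all families of
`d`-element subsets of the universe `{0, …, n-1}`: its output is at most `k` exactly on the
yes-instances. -/
def Solves {n : ℕ} (C : ℕ → Gate (Finset (Fin n))) (out d k : ℕ) : Prop :=
  ∀ F : Finset (Finset (Fin n)), (∀ A ∈ F, A.card = d) →
    (eval C (indicator F) out ≤ (k : ℕ∞) ↔ HasCover F k)

end Pool.Agent.Lib.MP_8fffab_lc
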