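import Pool.Agent.Lib.MP_8fffab_lc.Defs

namespace Pool.Agent.Lib.MP_8fffab_lc

open Finset

/-! ### The monomials of a circuit -/

/-- `Mon C k q c`: the monomial with variables `q` (with multiplicity) and constant term `c` is
produced at gate `k`. -/
inductive Mon {ι : Type} (C : ℕ → Gate ι) : ℕ → Multiset ι → ℕ → Prop
  | input {k : ℕ} {a : ι} (h : C k = .input a) : Mon C k {a} 0
  | const {k c : ℕ} (h : C k = .const (c : ℕ∞)) : Mon C k 0 c
  | minl {k i j : ℕ} {q : Multiset ι} {c : ℕ} (h : C k = .min i j) (hi : i < k) (hj : j < k)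
      (hq : Mon C i q c) : Mon C k q c
  | minr {k i j : ℕ} {q : Multiset ι} {c : ℕ} (h : C k = .min i j) (hi : i < k) (hj : j < k)
      (hq : Mon C j q c) : Mon C k q c
  | add {k i j : ℕ} {q₁ q₂ : Multiset ι} {c₁ c₂ : ℕ} (h : C k = .add i j) (hi : i < k)
      (hj : j < k) (h₁ : Mon C i q₁ c₁) (h₂ : Mon C j q₂ c₂) : Mon C k (q₁ + q₂) (c₁ + c₂)

theorem eval_le_of_mon {ι : Type} {C : ℕ → Gate ι} (x : ι → ℕ∞) {k : ℕ} {q : Multiset ι} {c : ℕ}
    (h : Mon C k q c) : eval C x k ≤ (q.map x).sum + c := by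
  induction h with
  | input h => rw [eval, h]; simp
  | const h => rw [eval, h]; simp
  | minl h hi hj _ ih =>
    rw [eval, h]
    simp only [hi, hj, and_self, dite_true]
    exact (min_le_left _ _).trans ih
  | minr h hi hj _ ih =>
    rw [eval, h]
    simp only [hi, hj, and_self, dite_true]
    exact (min_le_right _ _).trans ih
  | add h hi hj _ _ ih₁ ih₂ =>
    rw [eval, h]
    simp only [hi, hj, and_self, dite_true]
    calc _ ≤ _ := add_le_add ih₁ ih₂
      _ = _ := by rw [Multiset.map_add, Multiset.sum_add]; push_cast; ring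

theorem exists_mon {ι : Type} (C : ℕ → Gate ι) (x : ι → ℕ∞) (k : ℕ) :
    eval C x k ≠ ⊤ → ∃ q c, Mon C k q c ∧ (q.map x).sum + c = eval C x k := by
  induction k using Nat.strong_induction_on with
  | _ k ih =>
    intro hk
    rw [eval] at hk ⊢
    rcases h : C k with a | c | ⟨i, j⟩ | ⟨i, j⟩
    · exact ⟨{a}, 0, .input h, by simp⟩
    · rw [h] at hk
      obtain ⟨c', rfl⟩ := ENat.ne_top_iff_exists.1 hk
      exact ⟨0, c', .const h, by simp⟩
    · rw [h] at hk
      by_cases hij : i < k ∧ j < k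
      · simp only [hij, and_self, dite_true] at hk ⊢
        rcases le_total (eval C x i) (eval C x j) with hle | hle
        · rw [min_eq_left hle] at hk ⊢
          obtain ⟨q, c, hq, he⟩ := ih i hij.1 hk
          exact ⟨q, c, .minl h hij.1 hij.2 hq, he⟩
        · rw [min_eq_right hle] at hk ⊢
          obtain ⟨q, c, hq, he⟩ := ih j hij.2 hk
          exact ⟨q, c, .minr h hij.1 hij.2 hq, he⟩
      · simp only [hij, dite_false, ne_eq, not_true_eq_false] at hk
    · rw [h] at hk
      by_cases hij : i < k ∧ j < k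
      · simp only [hij, and_self, dite_true] at hk ⊢
        have h1 : eval C x i ≠ ⊤ := by
          intro h'; rw [h'] at hk; simp at hk
        have h2 : eval C x j ≠ ⊤ := by
          intro h'; rw [h'] at hk; simp at hk
        obtain ⟨q₁, c₁, hq₁, he₁⟩ := ih i hij.1 h1
        obtain ⟨q₂, c₂, hq₂, he₂⟩ := ih j hij.2 h2
        refine ⟨q₁ + q₂, c₁ + c₂, .add h hij.1 hij.2 hq₁ hq₂, ?_⟩
        rw [← he₁, ← he₂, Multiset.map_add, Multiset.sum_add]
        push_cast
        ring
      · simp only [hij, dite_false, ne_eq, not_true_eq_false] at hk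

/-- Every large monomial passes through an addition gate both of whose arguments are small. -/
theorem trace {ι : Type} (C : ℕ → Gate ι) (out h : ℕ) (hh : 1 ≤ h) (k : ℕ) :
    ∀ (q r : Multiset ι) (c c' : ℕ), k ≤ out → Mon C k q c → h < q.card →
      (∀ q' d, Mon C k q' d → Mon C out (q' + r) (d + c')) →
      ∃ g i j q₁ q₂ r₀ c₁ c₂ c₀, g ≤ out ∧ C g = .add i j ∧ Mon C i q₁ c₁ ∧ Mon C j q₂ c₂ ∧
        q₁.card ≤ h ∧ q₂.card ≤ h ∧ h < q₁.card + q₂.card ∧ q + r = q₁ + q₂ + r₀ ∧
        c + c' = c₁ + c₂ + c₀ ∧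
        ∀ q₁' q₂' c₁' c₂', Mon C i q₁' c₁' → Mon C j q₂' c₂' →
          Mon C out (q₁' + q₂' + r₀) (c₁' + c₂' + c₀) := by
  induction k using Nat.strong_induction_on with
  | _ k ih =>
    intro q r c c' hk hm hq henv
    cases hm with
    | input hg => simp at hq; omega
    | const hg => simp at hq
    | minl hg hi hj hm' =>
      exact ih _ hi q r c c' (by omega) hm' hq (fun q' d h' => henv q' d (.minl hg hi hj h'))
    | minr hg hi hj hm' =>
      exact ih _ hj q r c c' (by omega) hm' hq (fun q' d h' => henv q' d (.minr hg hi hj h'))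
    | @add _ i j q₁ q₂ c₁ c₂ hg hi hj h₁ h₂ =>
      by_cases hb₁ : h < q₁.card
      · obtain ⟨g, i', j', p₁, p₂, r₀, d₁, d₂, d₀, a1, a2, a3, a4, a5, a6, a7, a8, a9, a10⟩ :=
          ih i hi q₁ (q₂ + r) c₁ (c₂ + c') (by omega) h₁ hb₁ (by
            intro q' d h'
            have := henv _ _ (.add hg hi hj h' h₂)
            rwa [add_assoc, add_assoc] at this)
        refine ⟨g, i', j', p₁, p₂, r₀, d₁, d₂, d₀, a1, a2, a3, a4, a5, a6, a7, ?_, ?_, a10⟩
        · rw [← a8, add_assoc]
        · rw [← a9, add_assoc]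
      · by_cases hb₂ : h < q₂.card
        · obtain ⟨g, i', j', p₁, p₂, r₀, d₁, d₂, d₀, a1, a2, a3, a4, a5, a6, a7, a8, a9, a10⟩ :=
            ih j hj q₂ (q₁ + r) c₂ (c₁ + c') (by omega) h₂ hb₂ (by
              intro q' d h'
              have := henv _ _ (.add hg hi hj h₁ h')
              have e1 : q' + (q₁ + r) = q₁ + q' + r := by abel
              have e2 : d + (c₁ + c') = c₁ + d + c' := by ring
              rwa [e1, e2])
          refine ⟨g, i', j', p₁, p₂, r₀, d₁, d₂, d₀, a1, a2, a3, a4, a5, a6, a7, ?_, ?_, a10⟩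
          · rw [← a8]; abel
          · rw [← a9]; ring
        · refine ⟨k, i, j, q₁, q₂, r, c₁, c₂, c', hk, hg, h₁, h₂, by omega, by omega, ?_, rfl, rfl,
            ?_⟩
          · simpa using hq
          · intro q₁' q₂' c₁' c₂' h₁' h₂'
            exact henv _ _ (.add hg hi hj h₁' h₂')

/-! ### Counting permutations -/

theorem fact_bound {a b c h : ℕ} (ha : a ≤ h) (hb : b ≤ h) (hc : c ≤ h)
    (habc : a + b + c = 2 * h) :
    a.factorial * b.factorial * c.factorial ≤ h.factorial * h.factorial := by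
  -- put `t = h - a`, so that `c = t + (h - b)`
  obtain ⟨t, rfl⟩ := Nat.exists_eq_add_of_le ha
  by_cases htb : t ≤ b
  · obtain ⟨s, rfl⟩ := Nat.exists_eq_add_of_le htb
    -- b = t + s, with s + c = h
    have h1 : (t + s).factorial = (t + s).descFactorial t * s.factorial := by
      rw [mul_comm, ← Nat.factorial_mul_descFactorial (Nat.le_add_right t s)]
      simp
    have h2 : (a + t).factorial = (a + t).descFactorial t * a.factorial := by
      rw [mul_comm, ← Nat.factorial_mul_descFactorial (Nat.le_add_left t a)]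
      simp
    have h3 : (t + s).descFactorial t ≤ (a + t).descFactorial t :=
      Nat.descFactorial_le t hb
    have h4 : s.factorial * c.factorial ≤ (a + t).factorial := by
      have e : a + t = s + c := by omega
      rw [e]
      exact Nat.le_of_dvd (Nat.factorial_pos _) (Nat.factorial_mul_factorial_dvd_factorial_add s c)
    calc a.factorial * (t + s).factorial * c.factorial
        = ((t + s).descFactorial t * a.factorial) * (s.factorial * c.factorial) := by
          rw [h1]; ring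
      _ ≤ ((a + t).descFactorial t * a.factorial) * (a + t).factorial := by gcongr
      _ = (a + t).factorial * (a + t).factorial := by rw [← h2]
  · omega


theorem stab_bound {m h : ℕ} (hm : m = 2 * h) (c : Fin m → Fin 3)
    (h0 : (univ.filter fun i => c i = 0).card ≤ h)
    (h1 : (univ.filter fun i => c i = 1).card ≤ h)
    (h01 : h ≤ (univ.filter fun i => c i = 0).card + (univ.filter fun i => c i = 1).card) :
    Fintype.card {g : Equiv.Perm (Fin m) // c ∘ g = c} ≤ h.factorial * h.factorial := by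
  rw [DomMulAct.stabilizer_card, Fin.prod_univ_three]
  simp only [Fintype.card_subtype]
  have hsum : (univ.filter fun i => c i = 0).card + (univ.filter fun i => c i = 1).card +
      (univ.filter fun i => c i = 2).card = 2 * h := by
    have := Finset.card_eq_sum_card_fiberwise (s := (univ : Finset (Fin m)))
      (t := (univ : Finset (Fin 3))) (f := c) (fun _ _ => Finset.mem_univ _)
    rw [Fin.sum_univ_three, Finset.card_univ, Fintype.card_fin] at this
    rw [← hm]; exact this.symm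
  exact fact_bound h0 h1 (by omega) hsum

/-! ### The exact covers given by permutations -/

section blocks

variable {e m n : ℕ} (φ : Fin (e + 1) × Fin m ≃ Fin n) (σ : Fin e → Equiv.Perm (Fin m))

/-- the permutations, with the identity added for the first part -/
def full : Fin (e + 1) → Equiv.Perm (Fin m) := Fin.cons 1 σ

/-- the number of the block which contains `u` -/
def idx (u : Fin n) : Fin m := (full σ (φ.symm u).1).symm (φ.symm u).2

/-- the block number `i` -/
def block (i : Fin m) : Finset (Fin n) := univ.filter fun u => idx φ σ u = i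

theorem mem_block (i : Fin m) (u : Fin n) : u ∈ block φ σ i ↔ idx φ σ u = i := by
  simp [block]

theorem idx_apply (j : Fin (e + 1)) (y : Fin m) :
    idx φ σ (φ (j, y)) = (full σ j).symm y := by
  simp [idx]

theorem idx_zero (i : Fin m) : idx φ σ (φ (0, i)) = i := by
  rw [idx_apply]; rfl

theorem idx_succ (j : Fin e) (y : Fin m) : idx φ σ (φ (j.succ, y)) = (σ j).symm y := by
  rw [idx_apply]; rfl

theorem card_block (i : Fin m) : (block φ σ i).card = e + 1 := by
  have : block φ σ i = univ.image fun j : Fin (e + 1) => φ (j, full σ j i) := by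
    ext u
    rw [mem_block, Finset.mem_image]
    constructor
    · intro h
      refine ⟨(φ.symm u).1, Finset.mem_univ _, ?_⟩
      rw [← h]
      simp [idx]
    · rintro ⟨j, _, rfl⟩
      rw [idx_apply]
      simp
  rw [this, Finset.card_image_of_injective]
  · simp
  · intro j j' hj
    have := φ.injective hj
    exact (Prod.mk.inj this).1

theorem block_injective : Function.Injective (block φ σ) := by
  intro i i' h
  have h1 : φ (0, i) ∈ block φ σ i := by
    rw [mem_block, idx_zero]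
  rw [h, mem_block, idx_zero] at h1
  exact h1

/-- the family of all blocks -/
def fam : Finset (Finset (Fin n)) := univ.map ⟨block φ σ, block_injective φ σ⟩

theorem mem_fam (A : Finset (Fin n)) : A ∈ fam φ σ ↔ ∃ i, block φ σ i = A := by
  simp [fam]

theorem card_fam : (fam φ σ).card = m := by simp [fam]

theorem fam_cover : HasCover (fam φ σ) m :=
  ⟨fam φ σ, Finset.Subset.refl _, (card_fam φ σ).le, fun u =>
    ⟨block φ σ (idx φ σ u), (mem_fam φ σ _).2 ⟨_, rfl⟩, (mem_block φ σ _ _).2 rfl⟩⟩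

theorem cover_eq {G : Finset (Finset (Fin n))} (hG : G ⊆ fam φ σ)
    (hcov : ∀ u : Fin n, ∃ A ∈ G, u ∈ A) : fam φ σ ⊆ G := by
  intro A hA
  obtain ⟨i, rfl⟩ := (mem_fam φ σ A).1 hA
  obtain ⟨A', hA', hu⟩ := hcov (φ (0, i))
  obtain ⟨i', rfl⟩ := (mem_fam φ σ A').1 (hG hA')
  rw [mem_block, idx_zero] at hu
  rw [hu]; exact hA'

end blocks

theorem sum_indicator {n : ℕ} (F : Finset (Finset (Fin n))) (q : Multiset (Finset (Fin n))) :
    (∀ A ∈ q, A ∈ F) → (q.map (indicator F)).sum = q.card := by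
  induction q using Multiset.induction with
  | empty => simp
  | cons A q ih =>
    intro h
    rw [Multiset.map_cons, Multiset.sum_cons, ih (fun B hB => h B (Multiset.mem_cons_of_mem hB)),
      Multiset.card_cons]
    have : indicator F A = 1 := by
      unfold indicator
      rw [if_pos (h A (Multiset.mem_cons_self A q))]
    rw [this]
    push_cast
    ring

theorem mem_of_sum_ne_top {n : ℕ} (F : Finset (Finset (Fin n))) (q : Multiset (Finset (Fin n)))
    (h : (q.map (indicator F)).sum ≠ ⊤) : ∀ A ∈ q, A ∈ F := by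
  intro A hA
  by_contra hAF
  apply h
  obtain ⟨t, rfl⟩ := Multiset.exists_cons_of_mem hA
  rw [Multiset.map_cons, Multiset.sum_cons]
  have : indicator F A = ⊤ := by
    unfold indicator
    rw [if_neg hAF]
  rw [this, top_add]

section main

variable {e m n : ℕ} (φ : Fin (e + 1) × Fin m ≃ Fin n) {C : ℕ → Gate (Finset (Fin n))} {out : ℕ}

theorem cover_of_mon (hC : Solves C out (e + 1) m) {q : Multiset (Finset (Fin n))} {c : ℕ}
    (hm : Mon C out q c) (hle : q.card + c ≤ m) (hcard : ∀ A ∈ q, A.card = e + 1) :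
    ∀ u : Fin n, ∃ A ∈ q, u ∈ A := by
  classical
  have h1 := eval_le_of_mon (indicator q.toFinset) hm
  rw [sum_indicator _ _ (fun A hA => Multiset.mem_toFinset.2 hA)] at h1
  have h2 : eval C (indicator q.toFinset) out ≤ (m : ℕ∞) := by
    refine h1.trans ?_
    exact_mod_cast hle
  obtain ⟨G, hG, _, hcov⟩ := (hC q.toFinset (fun A hA => hcard A (Multiset.mem_toFinset.1 hA))).1 h2
  intro u
  obtain ⟨A, hA, hu⟩ := hcov u
  exact ⟨A, Multiset.mem_toFinset.1 (hG hA), hu⟩

theorem mon_fam (hC : Solves C out (e + 1) m) (σ : Fin e → Equiv.Perm (Fin m)) :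
    Mon C out (fam φ σ).val 0 := by
  classical
  have hcard : ∀ A ∈ fam φ σ, A.card = e + 1 := by
    intro A hA
    obtain ⟨i, rfl⟩ := (mem_fam φ σ A).1 hA
    exact card_block φ σ i
  have h1 := (hC (fam φ σ) hcard).2 (fam_cover φ σ)
  have h2 : eval C (indicator (fam φ σ)) out ≠ ⊤ :=
    ne_top_of_le_ne_top (ENat.natCast_ne_top m) h1
  obtain ⟨q, c, hq, he⟩ := exists_mon C _ out h2
  have h3 : (q.map (indicator (fam φ σ))).sum ≠ ⊤ := by
    intro h; rw [h, top_add] at he; exact h2 he.symm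
  have h4 := mem_of_sum_ne_top _ _ h3
  rw [sum_indicator _ _ h4] at he
  rw [← he] at h1
  have h5 : q.card + c ≤ m := by exact_mod_cast h1
  have h6 := cover_of_mon hC hq h5 (fun A hA => hcard A (h4 A hA))
  have h7 : fam φ σ ⊆ q.toFinset := by
    apply cover_eq φ σ
    · intro A hA; exact h4 A (Multiset.mem_toFinset.1 hA)
    · intro u
      obtain ⟨A, hA, hu⟩ := h6 u
      exact ⟨A, Multiset.mem_toFinset.2 hA, hu⟩
  have h8 : (fam φ σ).val ≤ q := by
    rw [Multiset.le_iff_subset (fam φ σ).nodup]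
    intro A hA
    exact Multiset.mem_toFinset.1 (h7 hA)
  have h9 : (fam φ σ).val.card = m := card_fam φ σ
  have h10 : (fam φ σ).val = q := Multiset.eq_of_le_of_card_le h8 (by omega)
  have h11 : c = 0 := by
    have := congrArg Multiset.card h10
    omega
  rw [h10, ← h11]
  exact hq

/-- the union of `q`, for a subfamily `q` of the blocks of `σ` -/
theorem card_union (σ : Fin e → Equiv.Perm (Fin m)) [DecidableEq (Finset (Fin n))]
    (q : Multiset (Finset (Fin n)))
    (hq : q ≤ (fam φ σ).val) :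
    (univ.filter fun u => block φ σ (idx φ σ u) ∈ q).card = (e + 1) * q.card := by
  have hnd : q.Nodup := Multiset.nodup_of_le hq (fam φ σ).nodup
  have h1 : (univ.filter fun u => block φ σ (idx φ σ u) ∈ q).card =
      ∑ A ∈ q.toFinset, (univ.filter fun u => block φ σ (idx φ σ u) = A).card := by
    rw [Finset.card_eq_sum_card_fiberwise (f := fun u => block φ σ (idx φ σ u))
      (t := q.toFinset)]
    · apply Finset.sum_congr rfl
      intro A hA
      congr 1
      ext u
      simp only [Finset.mem_filter, Finset.mem_univ, true_and, and_iff_right_iff_imp]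
      rintro rfl
      exact Multiset.mem_toFinset.1 hA
    · intro u hu
      simpa using hu
  rw [h1]
  have h2 : ∀ A ∈ q.toFinset, (univ.filter fun u => block φ σ (idx φ σ u) = A).card = e + 1 := by
    intro A hA
    obtain ⟨i, rfl⟩ := (mem_fam φ σ A).1 (Multiset.mem_of_le hq (Multiset.mem_toFinset.1 hA))
    rw [← card_block φ σ i]
    congr 1
    ext u
    rw [mem_block]
    simp only [Finset.mem_filter, Finset.mem_univ, true_and]
    exact (block_injective φ σ).eq_iff
  rw [Finset.sum_congr rfl h2, Finset.sum_const, Multiset.toFinset_card_of_nodup hnd]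
  simp [mul_comm]

theorem cut_subset (hC : Solves C out (e + 1) m) {σ τ : Fin e → Equiv.Perm (Fin m)}
    {q r q' r' : Multiset (Finset (Fin n))} (hσ : q + r = (fam φ σ).val)
    (hτ : q' + r' = (fam φ τ).val) (h1 : Mon C out (q' + r) 0) (hle : q'.card ≤ q.card) :
    ∀ u, block φ σ (idx φ σ u) ∈ q → block φ τ (idx φ τ u) ∈ q' := by
  intro u hu
  have hcard : ∀ A ∈ q' + r, A.card = e + 1 := by
    intro A hA
    rcases Multiset.mem_add.1 hA with h | h
    · have : A ∈ (fam φ τ).val := by rw [← hτ]; exact Multiset.mem_add.2 (Or.inl h)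
      obtain ⟨i, rfl⟩ := (mem_fam φ τ A).1 this
      exact card_block φ τ i
    · have : A ∈ (fam φ σ).val := by rw [← hσ]; exact Multiset.mem_add.2 (Or.inr h)
      obtain ⟨i, rfl⟩ := (mem_fam φ σ A).1 this
      exact card_block φ σ i
  have hm : (q' + r).card + 0 ≤ m := by
    have h2 : (q + r).card = m := by rw [hσ]; exact card_fam φ σ
    rw [Multiset.card_add] at h2 ⊢
    omega
  obtain ⟨A, hA, huA⟩ := cover_of_mon hC h1 hm hcard u
  rcases Multiset.mem_add.1 hA with h | h
  · have : A ∈ (fam φ τ).val := by rw [← hτ]; exact Multiset.mem_add.2 (Or.inl h)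
    obtain ⟨i, rfl⟩ := (mem_fam φ τ A).1 this
    rw [mem_block] at huA
    rw [huA]; exact h
  · exfalso
    have : A ∈ (fam φ σ).val := by rw [← hσ]; exact Multiset.mem_add.2 (Or.inr h)
    obtain ⟨i, rfl⟩ := (mem_fam φ σ A).1 this
    rw [mem_block] at huA
    rw [huA] at hu
    have hnd : (q + r).Nodup := by rw [hσ]; exact (fam φ σ).nodup
    exact Multiset.disjoint_left.1 (Multiset.nodup_add.1 hnd).2.2 hu h

theorem cut_eq (hC : Solves C out (e + 1) m) {σ τ : Fin e → Equiv.Perm (Fin m)}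
    {q r q' r' : Multiset (Finset (Fin n))} (hσ : q + r = (fam φ σ).val)
    (hτ : q' + r' = (fam φ τ).val) (h1 : Mon C out (q' + r) 0) (h2 : Mon C out (q + r') 0) :
    ∀ u, block φ σ (idx φ σ u) ∈ q ↔ block φ τ (idx φ τ u) ∈ q' := by
  classical
  have hcσ := card_union φ σ q (by rw [← hσ]; exact Multiset.le_add_right _ _)
  have hcτ := card_union φ τ q' (by rw [← hτ]; exact Multiset.le_add_right _ _)
  rcases le_total q'.card q.card with hle | hle
  · have hsub := cut_subset φ hC hσ hτ h1 hle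
    have heq : (univ.filter fun u => block φ σ (idx φ σ u) ∈ q) =
        (univ.filter fun u => block φ τ (idx φ τ u) ∈ q') := by
      apply Finset.eq_of_subset_of_card_le
      · intro u hu
        simp only [Finset.mem_filter, Finset.mem_univ, true_and] at hu ⊢
        exact hsub u hu
      · rw [hcσ, hcτ]; gcongr
    intro u
    have := Finset.ext_iff.1 heq u
    simpa using this
  · have hsub := cut_subset φ hC hτ hσ h2 hle
    have heq : (univ.filter fun u => block φ τ (idx φ τ u) ∈ q') =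
        (univ.filter fun u => block φ σ (idx φ σ u) ∈ q) := by
      apply Finset.eq_of_subset_of_card_le
      · intro u hu
        simp only [Finset.mem_filter, Finset.mem_univ, true_and] at hu ⊢
        exact hsub u hu
      · rw [hcσ, hcτ]; gcongr
    intro u
    have := Finset.ext_iff.1 heq u
    simpa using this.symm


end main

theorem lower_bound (e h : ℕ) (hh : 1 ≤ h) (n : ℕ) (φ : Fin (e + 1) × Fin (2 * h) ≃ Fin n)
    (C : ℕ → Gate (Finset (Fin n))) (out : ℕ) (hC : Solves C out (e + 1) (2 * h)) :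
    (Nat.centralBinom h) ^ e ≤ numAdd C out := by
  classical
  -- the trace of the exact cover of `σ`
  have htr : ∀ σ : Fin e → Equiv.Perm (Fin (2 * h)),
      ∃ g i j q₁ q₂ r₀, g ≤ out ∧ C g = .add i j ∧
        q₁.card ≤ h ∧ q₂.card ≤ h ∧ h < q₁.card + q₂.card ∧ (fam φ σ).val = q₁ + q₂ + r₀ ∧
        Mon C i q₁ 0 ∧ Mon C j q₂ 0 ∧
        ∀ q₁' q₂', Mon C i q₁' 0 → Mon C j q₂' 0 → Mon C out (q₁' + q₂' + r₀) 0 := by
    intro σ
    have h1 : ((fam φ σ).val).card = 2 * h := card_fam φ σ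
    obtain ⟨g, i, j, q₁, q₂, r₀, c₁, c₂, c₀, a1, a2, a3, a4, a5, a6, a7, a8, a9, a10⟩ :=
      trace C out h hh out (fam φ σ).val 0 0 0 le_rfl (mon_fam φ hC σ) (by omega)
        (fun q' d hq' => by simpa using hq')
    obtain ⟨rfl, rfl, rfl⟩ : c₁ = 0 ∧ c₂ = 0 ∧ c₀ = 0 := by omega
    refine ⟨g, i, j, q₁, q₂, r₀, a1, a2, a5, a6, a7, by simpa using a8, a3, a4, ?_⟩
    intro q₁' q₂' b1 b2
    exact a10 q₁' q₂' 0 0 b1 b2
  choose g i j q₁ q₂ r₀ hg1 hg2 hq₁ hq₂ hq₁₂ hsum hm₁ hm₂ henv using htr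
  -- the colouring of the blocks
  let col : (Fin e → Equiv.Perm (Fin (2 * h))) → Fin (2 * h) → Fin 3 := fun σ a =>
    if block φ σ a ∈ q₁ σ then 0 else if block φ σ a ∈ q₂ σ then 1 else 2
  have hcol : ∀ σ τ, g σ = g τ → ∀ u, col σ (idx φ σ u) = col τ (idx φ τ u) := by
    intro σ τ hgg u
    have hij : i σ = i τ ∧ j σ = j τ := by
      have h1 := hg2 σ
      rw [hgg, hg2 τ] at h1
      injection h1 with h2 h3
      exact ⟨h2.symm, h3.symm⟩
    have hA : block φ σ (idx φ σ u) ∈ q₁ σ ↔ block φ τ (idx φ τ u) ∈ q₁ τ := by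
      refine cut_eq φ hC (r := q₂ σ + r₀ σ) (r' := q₂ τ + r₀ τ) ?_ ?_ ?_ ?_ u
      · rw [hsum σ, add_assoc]
      · rw [hsum τ, add_assoc]
      · rw [← add_assoc]
        exact henv σ _ _ (by rw [hij.1]; exact hm₁ τ) (hm₂ σ)
      · rw [← add_assoc]
        exact henv τ _ _ (by rw [← hij.1]; exact hm₁ σ) (hm₂ τ)
    have hB : block φ σ (idx φ σ u) ∈ q₂ σ ↔ block φ τ (idx φ τ u) ∈ q₂ τ := by
      refine cut_eq φ hC (r := q₁ σ + r₀ σ) (r' := q₁ τ + r₀ τ) ?_ ?_ ?_ ?_ u
      · rw [hsum σ]; abel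
      · rw [hsum τ]; abel
      · have e1 : q₂ τ + (q₁ σ + r₀ σ) = q₁ σ + q₂ τ + r₀ σ := by abel
        rw [e1]
        exact henv σ _ _ (hm₁ σ) (by rw [hij.2]; exact hm₂ τ)
      · have e1 : q₂ σ + (q₁ τ + r₀ τ) = q₁ τ + q₂ σ + r₀ τ := by abel
        rw [e1]
        exact henv τ _ _ (hm₁ τ) (by rw [← hij.2]; exact hm₂ σ)
    simp only [col, hA, hB]
  -- sizes of the colour classes
  have hnd : ∀ σ, (q₁ σ + q₂ σ + r₀ σ).Nodup := by
    intro σ; rw [← hsum σ]; exact (fam φ σ).nodup
  have hsize : ∀ (σ) (q : Multiset (Finset (Fin n))), q.Nodup → (∀ A ∈ q, A ∈ fam φ σ) →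
      (univ.filter fun a => block φ σ a ∈ q).card = q.card := by
    intro σ q hq hsub
    rw [← Multiset.toFinset_card_of_nodup hq]
    apply Finset.card_bij (fun a _ => block φ σ a)
    · intro a ha
      simpa using ha
    · intro a _ b _ hab
      exact block_injective φ σ hab
    · intro A hA
      rw [Multiset.mem_toFinset] at hA
      obtain ⟨a, rfl⟩ := (mem_fam φ σ A).1 (hsub A hA)
      exact ⟨a, by simpa using hA, rfl⟩
  have hc0 : ∀ σ, (univ.filter fun a => col σ a = 0).card = (q₁ σ).card := by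
    intro σ
    rw [← hsize σ (q₁ σ)]
    · congr 1
      ext a
      simp only [Finset.mem_filter, Finset.mem_univ, true_and, col]
      split_ifs <;> simp_all
    · exact (Multiset.nodup_add.1 (Multiset.nodup_add.1 (hnd σ)).1).1
    · intro A hA
      have : A ∈ (fam φ σ).val := by
        rw [hsum σ]; exact Multiset.mem_add.2 (Or.inl (Multiset.mem_add.2 (Or.inl hA)))
      exact this
  have hc1 : ∀ σ, (univ.filter fun a => col σ a = 1).card = (q₂ σ).card := by
    intro σ
    rw [← hsize σ (q₂ σ)]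
    · congr 1
      ext a
      simp only [Finset.mem_filter, Finset.mem_univ, true_and, col]
      have hdis := (Multiset.nodup_add.1 (Multiset.nodup_add.1 (hnd σ)).1).2.2
      by_cases h1 : block φ σ a ∈ q₁ σ
      · have h2 : block φ σ a ∉ q₂ σ := fun h => Multiset.disjoint_left.1 hdis h1 h
        simp [h1, h2]
      · by_cases h2 : block φ σ a ∈ q₂ σ <;> simp [h1, h2]
    · exact (Multiset.nodup_add.1 (Multiset.nodup_add.1 (hnd σ)).1).2.1
    · intro A hA
      have : A ∈ (fam φ σ).val := by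
        rw [hsum σ]; exact Multiset.mem_add.2 (Or.inl (Multiset.mem_add.2 (Or.inr hA)))
      exact this
  -- the number of `σ` with the same gate
  have hfib : ∀ σ₀ : Fin e → Equiv.Perm (Fin (2 * h)),
      (univ.filter fun τ => g τ = g σ₀).card ≤ (h.factorial * h.factorial) ^ e := by
    intro σ₀
    have hst := stab_bound (m := 2 * h) (h := h) rfl (col σ₀) (by rw [hc0]; exact hq₁ σ₀)
      (by rw [hc1]; exact hq₂ σ₀) (by rw [hc0, hc1]; exact (hq₁₂ σ₀).le)
    have h1 : ∀ τ, g τ = g σ₀ → ∀ k : Fin e,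
        col σ₀ ∘ ((σ₀ k).trans (τ k).symm : Equiv.Perm (Fin (2 * h))) = col σ₀ := by
      intro τ hτ k
      have h2 : ∀ a, col τ a = col σ₀ a := by
        intro a
        have := hcol τ σ₀ hτ (φ (0, a))
        rwa [idx_zero, idx_zero] at this
      funext a
      have h3 := hcol τ σ₀ hτ (φ (k.succ, σ₀ k a))
      rw [idx_succ, idx_succ, Equiv.symm_apply_apply, h2] at h3
      exact h3
    let f : {τ // g τ = g σ₀} → (Fin e → {ρ : Equiv.Perm (Fin (2 * h)) // col σ₀ ∘ ρ = col σ₀}) :=
      fun τ k => ⟨(σ₀ k).trans (τ.1 k).symm, h1 τ.1 τ.2 k⟩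
    have hf : Function.Injective f := by
      intro τ τ' hττ
      apply Subtype.ext
      funext k
      have h2 := congrArg Subtype.val (congrFun hττ k)
      have h3 : (τ.1 k).symm = (τ'.1 k).symm := by
        ext a
        have := congrArg (fun ρ : Equiv.Perm (Fin (2 * h)) => (ρ ((σ₀ k).symm a) : ℕ)) h2
        simpa [f] using this
      simpa using congrArg Equiv.symm h3
    have h2 := Fintype.card_le_of_injective f hf
    rw [Fintype.card_pi, Finset.prod_const, Finset.card_univ, Fintype.card_fin] at h2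
    rw [Fintype.card_subtype] at h2
    exact h2.trans (Nat.pow_le_pow_left hst e)
  -- conclusion
  have hcount := Finset.card_le_mul_card_image (f := g)
    (univ : Finset (Fin e → Equiv.Perm (Fin (2 * h)))) ((h.factorial * h.factorial) ^ e) (by
      intro b hb
      obtain ⟨σ₀, _, rfl⟩ := Finset.mem_image.1 hb
      exact hfib σ₀)
  have himg : (univ.image g).card ≤ numAdd C out := by
    unfold numAdd
    rw [← Set.ncard_coe_finset]
    apply Set.ncard_le_ncard
    · intro b hb
      obtain ⟨σ, _, rfl⟩ := Finset.mem_image.1 (Finset.mem_coe.1 hb)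
      exact ⟨hg1 σ, i σ, j σ, hg2 σ⟩
    · exact (Set.finite_le_nat out).subset (fun k hk => hk.1)
  have hcard : (univ : Finset (Fin e → Equiv.Perm (Fin (2 * h)))).card =
      ((2 * h).factorial) ^ e := by
    rw [Finset.card_univ, Fintype.card_pi, Finset.prod_const, Finset.card_univ, Fintype.card_fin,
      Fintype.card_perm, Fintype.card_fin]
  have hcb : (2 * h).factorial = Nat.centralBinom h * (h.factorial * h.factorial) := by
    have := Nat.choose_mul_factorial_mul_factorial (show h ≤ 2 * h by omega)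
    have e1 : 2 * h - h = h := by omega
    rw [e1, ← Nat.centralBinom_eq_two_mul_choose] at this
    rw [← this]; ring
  rw [hcard, hcb, mul_pow] at hcount
  have hpos : 0 < (h.factorial * h.factorial) ^ e := by positivity
  have h2 : (h.factorial * h.factorial) ^ e * (Nat.centralBinom h) ^ e ≤
      (h.factorial * h.factorial) ^ e * numAdd C out := by
    calc _ = (Nat.centralBinom h) ^ e * (h.factorial * h.factorial) ^ e := by ring
      _ ≤ _ := hcount
      _ ≤ _ := by gcongr
  exact Nat.le_of_mul_le_mul_left h2 hpos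


/-! ### The explicit and the asymptotic form -/

theorem explicit_bound (d h : ℕ) (hd : 1 ≤ d) (hh : 1 ≤ h)
    (C : ℕ → Gate (Finset (Fin (d * (2 * h))))) (out : ℕ) (hC : Solves C out d (2 * h)) :
    (Nat.centralBinom h) ^ (d - 1) ≤ numAdd C out := by
  obtain ⟨e, rfl⟩ := Nat.exists_eq_add_of_le' hd
  exact lower_bound e h hh _ finProdFinEquiv C out hC

theorem exists_d (b : ℝ) (hb0 : 0 ≤ b) (hb : b < 2) : ∃ d : ℕ, 2 ≤ d ∧ b ^ d < 2 ^ (d - 1) := by
  have h1 : b / 2 < 1 := by linarith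
  obtain ⟨t, ht⟩ := exists_pow_lt_of_lt_one (show (0 : ℝ) < 1 / 2 by norm_num) h1
  refine ⟨t + 2, by omega, ?_⟩
  have h2 : (b / 2) ^ (t + 2) < 1 / 2 := by
    rw [pow_add]
    have h3 : (b / 2) ^ 2 ≤ 1 := pow_le_one₀ (by positivity) h1.le
    have h4 : 0 ≤ (b / 2) ^ t := by positivity
    nlinarith
  rw [div_pow, div_lt_iff₀ (by positivity)] at h2
  have h5 : (2 : ℝ) ^ (t + 2) = 2 ^ (t + 2 - 1) * 2 := by
    rw [← pow_succ]; congr 1
  rw [h5] at h2
  linarith

theorem asymptotic_bound (b : ℝ) (hb0 : 0 ≤ b) (hb : b < 2) :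
    ∃ d : ℕ, 2 ≤ d ∧ ∀ c : ℕ, ∃ h₀ : ℕ, ∀ h, h₀ ≤ h →
      ∀ (C : ℕ → Gate (Finset (Fin (d * (2 * h))))) (out : ℕ), Solves C out d (2 * h) →
        (c : ℝ) * b ^ (d * (2 * h)) *
          ((d * (2 * h) : ℕ) + ((d * (2 * h)).choose d : ℕ) : ℝ) ^ c < (numAdd C out : ℝ) := by
  obtain ⟨d, hd, hbd⟩ := exists_d b hb0 hb
  refine ⟨d, hd, fun c => ?_⟩
  -- the ratio tends to zero
  set r : ℝ := (b ^ d / 2 ^ (d - 1)) ^ 2 with hr
  have hr0 : 0 ≤ b ^ d / 2 ^ (d - 1) := by positivity
  have hr1 : b ^ d / 2 ^ (d - 1) < 1 := by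
    rw [div_lt_one (by positivity)]; exact hbd
  have hr2 : |r| < 1 := by
    rw [hr, abs_of_nonneg (by positivity)]
    exact pow_lt_one₀ hr0 hr1 (by norm_num)
  have hlim := (tendsto_pow_const_mul_const_pow_of_abs_lt_one ((d - 1) + d * c) hr2).const_mul
    ((c : ℝ) * 2 ^ (d - 1) * (2 * (2 * d) ^ d) ^ c)
  rw [mul_zero] at hlim
  have hev := (hlim.eventually (gt_mem_nhds (zero_lt_one))).and
    (Filter.eventually_ge_atTop 1)
  obtain ⟨h₀, hh₀⟩ := Filter.eventually_atTop.1 hev
  refine ⟨h₀, fun h hh C out hC => ?_⟩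
  obtain ⟨hlt, hh1⟩ := hh₀ h hh
  have hexp := explicit_bound d h (by omega) hh1 C out hC
  have hexp' : ((Nat.centralBinom h : ℝ)) ^ (d - 1) ≤ numAdd C out := by exact_mod_cast hexp
  refine lt_of_lt_of_le ?_ hexp'
  have hhR : (1 : ℝ) ≤ h := by exact_mod_cast hh1
  have hdR : (2 : ℝ) ≤ d := by exact_mod_cast hd
  -- central binomial coefficient
  have hcb : (4 : ℝ) ^ h ≤ (2 * h) * Nat.centralBinom h := by
    have := Nat.four_pow_le_two_mul_self_mul_centralBinom h (by omega)
    exact_mod_cast this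
  have hcb2 : ((4 : ℝ) ^ h) ^ (d - 1) ≤ (2 * h) ^ (d - 1) * (Nat.centralBinom h : ℝ) ^ (d - 1) := by
    rw [← mul_pow]
    gcongr
  -- size of the instance
  have hN : ((d * (2 * h) : ℕ) + ((d * (2 * h)).choose d : ℕ) : ℝ) ≤
      2 * (2 * d) ^ d * (h : ℝ) ^ d := by
    have h1 : (((d * (2 * h)).choose d : ℕ) : ℝ) ≤ ((d * (2 * h) : ℕ) : ℝ) ^ d := by
      exact_mod_cast Nat.choose_le_pow (d * (2 * h)) d
    have h2 : ((d * (2 * h) : ℕ) : ℝ) ≤ ((d * (2 * h) : ℕ) : ℝ) ^ d := by
      have h3 : (1 : ℝ) ≤ ((d * (2 * h) : ℕ) : ℝ) := by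
        have : 1 ≤ d * (2 * h) := by nlinarith
        exact_mod_cast this
      calc ((d * (2 * h) : ℕ) : ℝ) = ((d * (2 * h) : ℕ) : ℝ) ^ 1 := by ring
        _ ≤ _ := pow_le_pow_right₀ h3 (by omega)
    have h4 : ((d * (2 * h) : ℕ) : ℝ) ^ d = (2 * d) ^ d * (h : ℝ) ^ d := by
      rw [← mul_pow]
      congr 1
      push_cast
      ring
    rw [h4] at h1 h2
    linarith
  have hpos : (0 : ℝ) < (2 * h) ^ (d - 1) := by positivity
  have key : (2 * (h : ℝ)) ^ (d - 1) * ((c : ℝ) * b ^ (d * (2 * h)) *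
      ((d * (2 * h) : ℕ) + ((d * (2 * h)).choose d : ℕ) : ℝ) ^ c) < ((4 : ℝ) ^ h) ^ (d - 1) := by
    have h1 : (2 * (h : ℝ)) ^ (d - 1) * ((c : ℝ) * b ^ (d * (2 * h)) *
        ((d * (2 * h) : ℕ) + ((d * (2 * h)).choose d : ℕ) : ℝ) ^ c) ≤
        (2 * (h : ℝ)) ^ (d - 1) * ((c : ℝ) * b ^ (d * (2 * h)) *
          (2 * (2 * d) ^ d * (h : ℝ) ^ d) ^ c) := by
      gcongr
    refine lt_of_le_of_lt h1 ?_
    have h2 : (2 * (h : ℝ)) ^ (d - 1) * ((c : ℝ) * b ^ (d * (2 * h)) *
          (2 * (2 * d) ^ d * (h : ℝ) ^ d) ^ c) =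
        ((c : ℝ) * 2 ^ (d - 1) * (2 * (2 * d) ^ d) ^ c *
          ((h : ℝ) ^ ((d - 1) + d * c) * r ^ h)) * ((4 : ℝ) ^ h) ^ (d - 1) := by
      have e1 : r ^ h * ((4 : ℝ) ^ h) ^ (d - 1) = b ^ (d * (2 * h)) := by
        rw [hr, ← pow_mul, div_pow, ← pow_mul, ← pow_mul]
        have e2 : ((4 : ℝ) ^ h) ^ (d - 1) = 2 ^ ((d - 1) * (2 * h)) := by
          rw [← pow_mul, show (4 : ℝ) = 2 ^ 2 by norm_num, ← pow_mul]
          congr 1
          ring
        rw [e2, div_mul_cancel₀]
        positivity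
      calc (2 * (h : ℝ)) ^ (d - 1) * ((c : ℝ) * b ^ (d * (2 * h)) *
          (2 * (2 * d) ^ d * (h : ℝ) ^ d) ^ c)
          = (c : ℝ) * 2 ^ (d - 1) * (2 * (2 * d) ^ d) ^ c *
            ((h : ℝ) ^ ((d - 1) + d * c)) * b ^ (d * (2 * h)) := by
            rw [mul_pow 2 (h : ℝ), mul_pow (2 * (2 * (d : ℝ)) ^ d), ← pow_mul (h : ℝ) d c, pow_add]
            ring
        _ = _ := by rw [← e1]; ring
    rw [h2]
    have h3 : (0 : ℝ) < ((4 : ℝ) ^ h) ^ (d - 1) := by positivity
    calc _ < 1 * ((4 : ℝ) ^ h) ^ (d - 1) := by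
          apply mul_lt_mul_of_pos_right hlt h3
      _ = _ := one_mul _
  have h5 := lt_of_lt_of_le key hcb2
  exact lt_of_mul_lt_mul_left h5 hpos.le

end Pool.Agent.Lib.MP_8fffab_lc
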